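import Pool.Agent.SublinMorse.Proof

open Pool.Agent.SublinMorse

namespace Pool.Agent.Results.MP_395cce_al.LowerDivIffMorse

/-- **Main theorem.** In a geodesic metric space, for every sublinear gauge `κ` and every geodesic
ray `b`, the ray is `κ`-Morse iff its `κ`-lower divergence is superlinear; and it makes no
difference whether the `κ`-Morse property is tested against all quasi-geodesics or only against
the continuous ones. -/
theorem result {X : Type*} [MetricSpace X] (hX : IsGeodesicSpace X) (κ : ℝ → ℝ)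
    (hκ : IsSublinearGauge κ) (b : ℝ → X) (hb : IsGeodesicRay b) :
    (IsKappaMorse κ b ↔ IsSuperlinear κ b) ∧ (IsKappaMorseCont κ b ↔ IsSuperlinear κ b) := by
  obtain ⟨c, hc⟩ := hκ.exists_wGauge
  have h1 : IsKappaMorse κ b → IsKappaMorseCont κ b := fun ⟨m, hm, h⟩ =>
    ⟨m, hm, fun q Q hq hQ s e hse β _ hβ => h q Q hq hQ s e hse β hβ⟩
  have h2 : IsKappaMorseCont κ b → IsSuperlinear κ b := isSuperlinear_of_morse hX hc hb
  have h3 : IsSuperlinear κ b → IsKappaMorse κ b := isKappaMorse_of_superlinear hX hc hb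
  exact ⟨⟨fun h => h2 (h1 h), h3⟩, ⟨h2, fun h => h1 (h3 h)⟩⟩

end Pool.Agent.Results.MP_395cce_al.LowerDivIffMorse
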